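import Pool.Agent.helper91.SI.Spec4

set_option autoImplicit false

namespace Pool.Agent.helper91.SI

open Pool.Agent.helper20.IG (IsIndepDom IsISet iGraph)

theorem B6L_key (V : Type) [DecidableEq V] (S : ZMod 6 → Finset V) (s v : ZMod 6 → V)
    (hs : ∀ t, s t ∈ S t) (hv : ∀ t, v t ∉ S t)
    (hS : ∀ t, S (t + 1) = insert (v t) ((S t).erase (s t))) (x : V) :
    (∑ t : ZMod 6, (if x = v t then (1 : ℤ) else 0)) =
      ∑ t : ZMod 6, (if x = s t then (1 : ℤ) else 0) := by
  have h1 : ∀ t, (if x ∈ S (t + 1) then (1 : ℤ) else 0) =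
      (if x ∈ S t then (1 : ℤ) else 0) + (if x = v t then (1 : ℤ) else 0) -
        (if x = s t then (1 : ℤ) else 0) := by
    intro t
    have hmem : x ∈ S (t + 1) ↔ (x = v t ∨ (x ≠ s t ∧ x ∈ S t)) := by
      rw [hS t, Finset.mem_insert, Finset.mem_erase]
    by_cases h1 : x = v t
    · have h2 : x ∉ S t := by rw [h1]; exact hv t
      have h3 : x ≠ s t := by
        intro h
        exact h2 (by rw [h]; exact hs t)
      rw [if_pos (hmem.2 (Or.inl h1)), if_neg h2, if_pos h1, if_neg h3]
      norm_num
    · by_cases h2 : x = s t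
      · have h3 : x ∈ S t := by rw [h2]; exact hs t
        have h4 : x ∉ S (t + 1) := by
          intro h
          rcases hmem.1 h with h | h
          · exact h1 h
          · exact h.1 h2
        rw [if_neg h4, if_pos h3, if_neg h1, if_pos h2]
        norm_num
      · by_cases h3 : x ∈ S t
        · rw [if_pos (hmem.2 (Or.inr ⟨h2, h3⟩)), if_pos h3, if_neg h1, if_neg h2]
          norm_num
        · have h4 : x ∉ S (t + 1) := by
            intro h
            rcases hmem.1 h with h | h
            · exact h1 h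
            · exact h3 h.2
          rw [if_neg h4, if_neg h3, if_neg h1, if_neg h2]
          norm_num
  have h2 : (∑ t : ZMod 6, (if x ∈ S (t + 1) then (1 : ℤ) else 0)) =
      (∑ t : ZMod 6, (if x ∈ S t then (1 : ℤ) else 0)) +
        (∑ t : ZMod 6, (if x = v t then (1 : ℤ) else 0)) -
          ∑ t : ZMod 6, (if x = s t then (1 : ℤ) else 0) := by
    rw [← Finset.sum_add_distrib, ← Finset.sum_sub_distrib]
    exact Finset.sum_congr rfl (fun t _ => h1 t)
  have h3 : (∑ t : ZMod 6, (if x ∈ S (t + 1) then (1 : ℤ) else 0)) =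
      ∑ t : ZMod 6, (if x ∈ S t then (1 : ℤ) else 0) :=
    Equiv.sum_comp (Equiv.addRight (1 : ZMod 6)) (fun t => if x ∈ S t then (1 : ℤ) else 0)
  linarith

theorem B6L : B6L_stmt := by
  intro V _ S s v hs hv hS
  have hc : ∀ x : V, Fintype.card {t : ZMod 6 // v t = x} = Fintype.card {t : ZMod 6 // s t = x} := by
    intro x
    have h := B6L_key V S s v hs hv hS x
    rw [Finset.sum_boole, Finset.sum_boole] at h
    have h' : (Finset.univ.filter (fun t : ZMod 6 => x = v t)).card =
        (Finset.univ.filter (fun t : ZMod 6 => x = s t)).card := by exact_mod_cast h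
    rw [Fintype.card_subtype, Fintype.card_subtype]
    simpa only [eq_comm] using h'
  refine ⟨Equiv.ofFiberEquiv (fun x => Fintype.equivOfCardEq (hc x)), fun t => ?_⟩
  exact (Equiv.ofFiberEquiv_map (fun x => Fintype.equivOfCardEq (hc x)) t).symm

end Pool.Agent.helper91.SI
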