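import Pool.Agent.helper91.SI.Spec5
import Pool.Agent.helper57.SI.PA0
import Pool.Agent.helper33.SI.PA2
import Pool.Agent.helper71.SI.PA4

set_option autoImplicit false

namespace Pool.Agent.helper91.SI

open Pool.Agent.helper20.IG (IsIndepDom IsISet iGraph)

theorem CPN_inj (n m : ℕ) (P : Finset (Fin n) → Prop) (f : {S // P S} → Fin m)
    (hf : Function.Injective f) : Nat.card {S // P S} ≤ m := by
  have h := Nat.card_le_card_of_injective f hf
  rwa [Nat.card_eq_fintype_card (α := Fin m), Fintype.card_fin] at h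

theorem CPN_one (n : ℕ) (P : Finset (Fin n) → Prop) (T : Finset (Fin n)) (h : ∀ S, P S → S = T) :
    Nat.card {S // P S} ≤ 1 :=
  CPN_inj n 1 P (fun _ => 0) (fun a b _ => Subtype.ext ((h _ a.2).trans (h _ b.2).symm))

theorem CPN_n1 : Nat.card {S // IsISet (SimpleGraph.pathGraph 1) S} ≤ 1 := by
  refine CPN_one 1 _ Finset.univ (fun S hS => ?_)
  ext x
  refine ⟨fun _ => Finset.mem_univ _, fun _ => ?_⟩
  by_contra hx
  obtain ⟨u, _, hu⟩ := hS.1.2 x hx
  have h1 : u = x := Subsingleton.elim _ _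
  rw [h1] at hu
  exact (SimpleGraph.pathGraph 1).loopless.irrefl _ hu

theorem CPN_n2 : Nat.card {S // IsISet (SimpleGraph.pathGraph 2) S} ≤ 2 := by
  classical
  have key : ∀ S : Finset (Fin 2), IsISet (SimpleGraph.pathGraph 2) S → ((1 : Fin 2) ∈ S ↔ (0 : Fin 2) ∉ S) := by
    intro S hS
    have hadj : (SimpleGraph.pathGraph 2).Adj 0 1 := by
      rw [SimpleGraph.pathGraph_adj]
      exact Or.inl rfl
    constructor
    · intro h1 h0
      exact hS.1.1 _ h0 _ h1 hadj
    · intro h0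
      obtain ⟨u, hu, hu2⟩ := hS.1.2 _ h0
      have h3 : u ≠ 0 := fun h => h0 (h ▸ hu)
      have h4 : u = 1 := by omega
      exact h4 ▸ hu
  refine CPN_inj 2 2 _ (fun S => if (0 : Fin 2) ∈ S.1 then 0 else 1) (fun a b hab => Subtype.ext ?_)
  have h0 : (0 : Fin 2) ∈ a.1 ↔ (0 : Fin 2) ∈ b.1 := by
    simp only [] at hab
    by_cases h1 : (0 : Fin 2) ∈ a.1 <;> by_cases h2 : (0 : Fin 2) ∈ b.1
    · exact ⟨fun _ => h2, fun _ => h1⟩
    · rw [if_pos h1, if_neg h2] at hab
      exact absurd hab (by decide)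
    · rw [if_neg h1, if_pos h2] at hab
      exact absurd hab (by decide)
    · exact ⟨fun h => absurd h h1, fun h => absurd h h2⟩
  have h1 : (1 : Fin 2) ∈ a.1 ↔ (1 : Fin 2) ∈ b.1 := by
    rw [key _ a.2, key _ b.2, h0]
  ext x
  have hx : x = 0 ∨ x = 1 := by omega
  rcases hx with hx | hx
  · rw [hx]; exact h0
  · rw [hx]; exact h1

theorem CPN_n4 : Nat.card {S // IsISet (SimpleGraph.pathGraph 4) S} ≤ 4 := by
  have h1 : Nat.card {S // IsISet (SimpleGraph.pathGraph 4) S} ≤ Nat.card {S // S ∈ PA4_three} :=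
    Nat.card_le_card_of_injective (fun S => ⟨S.1, PA4_mem _ S.2⟩)
      (fun a b hab => Subtype.ext (by simpa using congrArg (fun z : {S // S ∈ PA4_three} => z.1) hab))
  have h2 : Nat.card {S // S ∈ PA4_three} = PA4_three.card := by
    rw [Nat.card_eq_fintype_card, Fintype.card_coe]
  have h3 : PA4_three.card ≤ 3 := by decide
  omega

theorem CPN (hPAB : PAB_stmt) : CPN_stmt := by
  intro n hn h
  have h0 : n = 1 ∨ n = 2 ∨ n = 4 ∨ (3 ≤ n ∧ n % 3 = 0) ∨ (5 ≤ n ∧ n % 3 = 2) := by omega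
  rcases h0 with rfl | rfl | rfl | ⟨h1, h2⟩ | ⟨h1, h2⟩
  · exact CPN_n1
  · exact CPN_n2
  · exact CPN_n4
  · obtain ⟨k, hk⟩ : ∃ k, n = 3 * k := ⟨n / 3, by omega⟩
    have hk1 : 1 ≤ k := by omega
    refine (CPN_one n _ (Finset.univ.filter (fun x : Fin n => x.val % 3 = 1)) ?_).trans hn
    intro S hS
    obtain ⟨h1, h2, h3⟩ := hPAB n k (Or.inl hk) hk1 (by omega) S hS
    have h4 : ∀ x ∈ S, x.val % 3 = 1 := by
      intro x hx
      have h5 := h3 x hx
      have h6 : x.val % 3 ≠ 0 := fun h => PA0_aux hPAB n k hk hk1 S hS n x hx h (by omega)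
      omega
    ext y
    constructor
    · intro hy
      exact Finset.mem_filter.2 ⟨Finset.mem_univ _, h4 y hy⟩
    · intro hy
      have hy3 := (Finset.mem_filter.1 hy).2
      have hyn := y.isLt
      obtain ⟨x, hx, hxj⟩ := h1 (y.val / 3) (by omega)
      have h7 := h4 x hx
      have h8 : x = y := Fin.ext (by omega)
      rw [← h8]
      exact hx
  · obtain ⟨k, hk⟩ : ∃ k, n + 1 = 3 * k := ⟨(n + 1) / 3, by omega⟩
    have hk2 : 2 ≤ k := by omega
    choose t ht1 ht2 using PA2_struct hPAB n k hk hk2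
    refine (CPN_inj n (k + 1) _ (fun S => ⟨t S.1 S.2, by have := ht1 S.1 S.2; omega⟩) ?_).trans
      (by omega)
    intro a b hab
    have h3 : t a.1 a.2 = t b.1 b.2 := congrArg Fin.val hab
    apply Subtype.ext
    ext x
    rw [ht2 a.1 a.2 x, ht2 b.1 b.2 x, h3]

end Pool.Agent.helper91.SI
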