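import Pool.Agent.helper91.SI.Spec

set_option autoImplicit false

namespace Pool.Agent.helper91.SI

open Pool.Agent.helper20.IG (IsIndepDom IsISet iGraph)

/-- A token has at most one slide. -/
theorem SAM (hSLD : SLD_stmt) : SAM_stmt := by
  intro V _ G S s v w hT hv hw
  by_contra hne
  obtain ⟨t, htS, hts, htw⟩ := (hSLD V G S s v hT hv).2 w hw.2.2.2.1 (Ne.symm hne)
  exact hts ((hSLD V G S s w hT hw).1 t htS htw)

end Pool.Agent.helper91.SI
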